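import Pool.Agent.H56.E.Base
import Pool.Agent.H56.E.H56.G3.TI
import Pool.Agent.H91.BS.ESM

set_option autoImplicit false

namespace Pool.Agent.H56.E.H30.G3

open Pool.Agent.H30.G3

open Finset Pool.Agent.H6.N4D Pool.Agent.H78.GX.H6.N4D Pool.Agent.H93.EB Pool.Agent.H93.GS Pool.Agent.H56.G3 Pool.Agent.H56.E.H56.G3

private theorem ba_one (z : ℂ) : z = ‖z‖ * ee (ph z) := by
  unfold ee ph
  have h : (2 * Real.pi * (Complex.arg z / (2 * Real.pi)) : ℝ) = Complex.arg z := by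
    have := Real.pi_pos
    field_simp
  rw [h]
  exact (Complex.norm_mul_exp_arg_mul_I z).symm

private theorem ba_four (x y : ℝ) : 4 * nd (x - y) ≤ ‖ee x - ee y‖ := by
  have h := Pool.Agent.H91.BS.four_nd_le (x - y)
  have h1 : ee x - ee y = ee y * (ee (x - y) - 1) := by
    rw [mul_sub, ← ee_add, mul_one]
    congr 2
    ring
  rw [h1, norm_mul, norm_ee, one_mul]
  exact h

theorem pf_BA : T_BA := by
  refine ⟨ba_one, ?_, ?_⟩
  · intro κp e z z' hκ hz hzz
    have hz0 : 0 < ‖z‖ := hκ.trans_le hz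
    have he : 0 ≤ e := (norm_nonneg _).trans hzz
    by_cases hz' : z' = 0
    · rw [hz', sub_zero] at hzz
      have h1 : 1 ≤ e / κp := by
        rw [le_div_iff₀ hκ]; linarith
      have h2 := nd_le_half (ph z - ph z')
      linarith
    · have hz1 : 0 < ‖z'‖ := norm_pos_iff.2 hz'
      have h3 := ba_four (ph z) (ph z')
      have e1 : ((‖z‖ : ℝ) : ℂ) * (ee (ph z) - ee (ph z')) =
          (z - z') + ((‖z'‖ : ℝ) - (‖z‖ : ℝ) : ℂ) * ee (ph z') := by
        have h4 := ba_one z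
        have h5 := ba_one z'
        have h6 : ((‖z‖ : ℝ) : ℂ) * (ee (ph z) - ee (ph z')) =
            (‖z‖ * ee (ph z) - ‖z'‖ * ee (ph z')) +
              ((‖z'‖ : ℝ) - (‖z‖ : ℝ) : ℂ) * ee (ph z') := by ring
        rw [← h4, ← h5] at h6
        exact h6
      have e2 : ‖z‖ * ‖ee (ph z) - ee (ph z')‖ ≤ 2 * e := by
        have h7 : ‖((‖z‖ : ℝ) : ℂ) * (ee (ph z) - ee (ph z'))‖ =
            ‖z‖ * ‖ee (ph z) - ee (ph z')‖ := by
          rw [norm_mul, Complex.norm_real, Real.norm_eq_abs, abs_of_pos hz0]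
        rw [← h7, e1]
        refine (norm_add_le _ _).trans ?_
        rw [norm_mul, norm_ee, mul_one]
        have h8 : ‖((‖z'‖ : ℝ) - (‖z‖ : ℝ) : ℂ)‖ ≤ ‖z - z'‖ := by
          rw [← Complex.ofReal_sub, Complex.norm_real, Real.norm_eq_abs, abs_sub_comm]
          exact abs_norm_sub_norm_le z z'
        linarith
      rw [le_div_iff₀ hκ]
      have h9 := mul_le_mul_of_nonneg_left h3 hz0.le
      have h10 := mul_le_mul_of_nonneg_right hz (nd_nonneg (ph z - ph z'))
      nlinarith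
  · intro z x hz
    have hz0 : (‖z‖ : ℝ) ≠ 0 := norm_ne_zero_iff.2 hz
    have h1 := ba_one (z * ee x)
    have h2 := ba_one z
    have h3 : ‖z * ee x‖ = ‖z‖ := by rw [norm_mul, norm_ee, mul_one]
    rw [h3] at h1
    have h4 : ((‖z‖ : ℝ) : ℂ) * ee (ph (z * ee x)) = ((‖z‖ : ℝ) : ℂ) * ee (ph z + x) := by
      rw [← h1, ee_add, ← mul_assoc, ← h2]
    have h5 : ee (ph (z * ee x)) = ee (ph z + x) :=
      mul_left_cancel₀ (by exact_mod_cast hz0) h4
    have h6 := ba_four (ph (z * ee x)) (ph z + x)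
    rw [h5, sub_self, norm_zero] at h6
    have h7 := nd_nonneg (ph (z * ee x) - (ph z + x))
    linarith

end Pool.Agent.H56.E.H30.G3
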